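import Pool.Agent.Helper1.T1.Goals

/-!
PROJECT T1, packet NOD: enough nodes over the complex numbers.
-/

set_option autoImplicit false

noncomputable section

namespace Pool.Agent.Helper72.T1.NOD

open Pool.Agent.Helper1.T1

/-- greedy choice -/
theorem greedy {α : Type} [DecidableEq α] (Z : Finset α) (E : α → Finset α)
    (hE : ∀ x, (E x).card ≤ 4) : ∀ c : ℕ, 4 * c ≤ Z.card → 
    ∃ z : Fin c → α, (∀ l, z l ∈ Z) ∧ ∀ l l', l' < l → z l ∉ E (z l') := by
  intro c
  induction c with
  | zero => intro _; exact ⟨fun l => l.elim0, fun l => l.elim0, fun l => l.elim0⟩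
  | succ c ih =>
    intro h
    obtain ⟨z, hz, hs⟩ := ih (by omega)
    have hcard : (Finset.univ.biUnion fun l => E (z l)).card ≤ 4 * c := by
      refine Finset.card_biUnion_le.trans ?_
      refine (Finset.sum_le_sum fun l _ => hE (z l)).trans ?_
      simp [mul_comm]
    obtain ⟨w, hw, hw'⟩ : ∃ w ∈ Z, w ∉ Finset.univ.biUnion fun l => E (z l) := by
      by_contra hcon
      have hsub : Z ⊆ Finset.univ.biUnion fun l => E (z l) := by
        intro x hx
        by_contra hx'
        exact hcon ⟨x, hx, hx'⟩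
      have := Finset.card_le_card hsub
      omega
    refine ⟨Fin.snoc z w, ?_, ?_⟩
    · intro l
      refine Fin.lastCases ?_ (fun i => ?_) l
      · simpa using hw
      · simpa using hz i
    · intro l l' hl
      revert hl
      refine Fin.lastCases ?_ (fun i => ?_) l
      · refine Fin.lastCases ?_ (fun j => ?_) l'
        · intro h; exact absurd h (lt_irrefl _)
        · intro _
          simp only [Fin.snoc_last, Fin.snoc_castSucc]
          intro hmem
          exact hw' (Finset.mem_biUnion.2 ⟨j, Finset.mem_univ _, hmem⟩)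
      · refine Fin.lastCases ?_ (fun j => ?_) l'
        · intro h; exact absurd h (not_lt.2 (Fin.le_last _))
        · intro h
          simp only [Fin.snoc_castSucc]
          exact hs i j (by simpa using h)

theorem card_mult (m q : ℕ) (hm : 0 < m) : 
    ((Finset.range (m * q)).filter fun i => m ∣ i).card = q := by
  have : ((Finset.range (m * q)).filter fun i => m ∣ i) = (Finset.range q).image (fun j => m * j) := by
    ext i
    simp only [Finset.mem_filter, Finset.mem_range, Finset.mem_image]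
    constructor
    · rintro ⟨h1, j, rfl⟩
      exact ⟨j, lt_of_mul_lt_mul_left h1 (Nat.zero_le _), rfl⟩
    · rintro ⟨j, hj, rfl⟩
      exact ⟨Nat.mul_lt_mul_of_pos_left hj hm, dvd_mul_right _ _⟩
  rw [this, Finset.card_image_of_injective _ (fun a b h => Nat.eq_of_mul_eq_mul_left hm h),
    Finset.card_range]

theorem card_Z (k : ℕ) (hk : 3 ≤ k) :
    2 * ((k - 1) * (k - 2)) ≤ ((Finset.range (2 * (k * (k - 1)))).filter
      fun i => ¬ (k - 1) ∣ i ∧ ¬ k ∣ i).card := by
  obtain ⟨m, rfl⟩ : ∃ m, k = m + 3 := ⟨k - 3, by omega⟩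
  have e1 : m + 3 - 1 = m + 2 := by omega
  have e2 : m + 3 - 2 = m + 1 := by omega
  rw [e1, e2]
  set n := 2 * ((m + 3) * (m + 2)) with hn
  set A := (Finset.range n).filter fun i => (m + 2) ∣ i with hA
  set B := (Finset.range n).filter fun i => (m + 3) ∣ i with hB
  have hAc : A.card = 2 * (m + 3) := by
    have := card_mult (m + 2) (2 * (m + 3)) (by omega)
    rw [show (m + 2) * (2 * (m + 3)) = n by rw [hn]; ring] at this
    exact this
  have hBc : B.card = 2 * (m + 2) := by
    have := card_mult (m + 3) (2 * (m + 2)) (by omega)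
    rw [show (m + 3) * (2 * (m + 2)) = n by rw [hn]; ring] at this
    exact this
  have hABc : (A ∩ B).card = 2 := by
    have := card_mult ((m + 2) * (m + 3)) 2 (by positivity)
    rw [show (m + 2) * (m + 3) * 2 = n by rw [hn]; ring] at this
    rw [← this]
    congr 1
    ext i
    simp only [hA, hB, Finset.mem_inter, Finset.mem_filter]
    have hco : Nat.Coprime (m + 2) (m + 3) := by
      have := (Nat.coprime_self_add_right (m := m + 2) (n := 1)).2 (Nat.coprime_one_right _)
      exact this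
    constructor
    · rintro ⟨⟨h, h1⟩, -, h2⟩
      exact ⟨h, hco.mul_dvd_of_dvd_of_dvd h1 h2⟩
    · rintro ⟨h, h1⟩
      exact ⟨⟨h, (dvd_mul_right _ _).trans h1⟩, h, (dvd_mul_left _ _).trans h1⟩
  have hU : (A ∪ B).card + (A ∩ B).card = A.card + B.card := Finset.card_union_add_card_inter A B
  have hZ : (Finset.range n).filter (fun i => ¬ (m + 2) ∣ i ∧ ¬ (m + 3) ∣ i) =
      Finset.range n \ (A ∪ B) := by
    ext i
    simp only [hA, hB, Finset.mem_sdiff, Finset.mem_union, Finset.mem_filter]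
    tauto
  have hsub : A ∪ B ⊆ Finset.range n := by
    intro i
    simp only [hA, hB, Finset.mem_union, Finset.mem_filter]
    tauto
  rw [hZ, Finset.card_sdiff_of_subset hsub, Finset.card_range, hn]
  have h1 : (A ∪ B).card = 4 * m + 8 := by omega
  rw [h1]
  have h2 : 2 * ((m + 3) * (m + 2)) = 2 * ((m + 2) * (m + 1)) + (4 * m + 8) := by ring
  omega

theorem cnj_cnj {F : Type} [Field F] (k : ℕ) (hk : 1 ≤ k) (ξ : Fˣ)
    (h : ξ ^ (2 * (k * (k - 1))) = 1) : cnj k (cnj k ξ) = ξ := by
  unfold cnj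
  rw [inv_pow, inv_inv, ← pow_mul]
  obtain ⟨m, rfl⟩ : ∃ m, k = m + 1 := ⟨k - 1, by omega⟩
  have e : (2 * (m + 1) - 1) * (2 * (m + 1) - 1) = 2 * ((m + 1) * (m + 1 - 1)) * 2 + 1 := by
    have e1 : 2 * (m + 1) - 1 = 2 * m + 1 := by omega
    rw [e1, Nat.add_sub_cancel]; ring
  rw [e, pow_succ, pow_mul, h, one_pow, one_mul]

theorem cnj_inv {F : Type} [Field F] (k : ℕ) (ξ : Fˣ) : cnj k ξ⁻¹ = (cnj k ξ)⁻¹ := by
  unfold cnj
  rw [inv_pow]

theorem sep_symm {F : Type} [Field F] (k : ℕ) (hk : 1 ≤ k) (ζ ξ : Fˣ)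
    (h : ζ ^ (2 * (k * (k - 1))) = 1) (hs : Sep k ζ ξ) : Sep k ξ ζ := by
  obtain ⟨h1, h2, h3, h4⟩ := hs
  refine ⟨fun e => h1 e.symm, fun e => h2 ?_, fun e => h3 ?_, fun e => h4 ?_⟩
  · rw [e, inv_inv]
  · rw [e, cnj_cnj k hk ζ h]
  · rw [e, cnj_inv, cnj_cnj k hk ζ h, inv_inv]

theorem t : S_NOD := by
  intro k c hk hc
  classical
  have hkk : 0 < k * (k - 1) := Nat.mul_pos (by omega) (by omega)
  have hn0 : 2 * (k * (k - 1)) ≠ 0 := by omega
  have hω := Complex.isPrimitiveRoot_exp (2 * (k * (k - 1))) hn0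
  obtain ⟨u, hu⟩ : ∃ u : ℂˣ, IsPrimitiveRoot u (2 * (k * (k - 1))) :=
    ⟨(hω.isUnit hn0).unit, by
      rw [← IsPrimitiveRoot.coe_units_iff]; simpa using hω⟩
  set I := (Finset.range (2 * (k * (k - 1)))).filter fun i => ¬ (k - 1) ∣ i ∧ ¬ k ∣ i with hI
  set Z := I.image fun i => u ^ i with hZ
  have hZc : Z.card = I.card := by
    rw [hZ]
    refine Finset.card_image_of_injOn ?_
    intro a ha b hb hab
    have ha' : a < 2 * (k * (k - 1)) := by
      have := (Finset.mem_filter.1 (Finset.mem_coe.1 ha)).1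
      simpa using this
    have hb' : b < 2 * (k * (k - 1)) := by
      have := (Finset.mem_filter.1 (Finset.mem_coe.1 hb)).1
      simpa using this
    exact hu.pow_inj ha' hb' hab
  have hcard : 4 * c ≤ Z.card := by
    have := card_Z k hk
    rw [hZc, hI]
    omega
  have hnode : ∀ ζ ∈ Z, IsNode k ζ := by
    intro ζ hζ
    obtain ⟨i, hi, rfl⟩ := Finset.mem_image.1 hζ
    obtain ⟨-, hi1, hi2⟩ := Finset.mem_filter.1 hi
    refine ⟨?_, ?_, ?_⟩
    · rw [← pow_mul, mul_comm, pow_mul, hu.pow_eq_one, one_pow]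
    · rw [← pow_mul]
      intro h
      rw [hu.pow_eq_one_iff_dvd] at h
      apply hi1
      have : (2 * k) * (k - 1) ∣ (2 * k) * i := by
        have e1 : 2 * (k * (k - 1)) = (2 * k) * (k - 1) := by ring
        have e2 : i * (2 * k) = (2 * k) * i := by ring
        rwa [e1, e2] at h
      exact Nat.dvd_of_mul_dvd_mul_left (by omega) this
    · rw [← pow_mul]
      intro h
      rw [hu.pow_eq_one_iff_dvd] at h
      apply hi2
      have : (2 * (k - 1)) * k ∣ (2 * (k - 1)) * i := by
        have e1 : 2 * (k * (k - 1)) = (2 * (k - 1)) * k := by ring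
        have e2 : i * (2 * (k - 1)) = (2 * (k - 1)) * i := by ring
        rwa [e1, e2] at h
      exact Nat.dvd_of_mul_dvd_mul_left (by omega) this
  obtain ⟨z, hz, hs⟩ := greedy Z (fun ξ => {ξ, ξ⁻¹, cnj k ξ, (cnj k ξ)⁻¹}) (by
    intro ξ
    exact Finset.card_le_four) c hcard
  have key : ∀ l l', l' < l → Sep k (z l) (z l') := by
    intro l l' hl
    have := hs l l' hl
    simp only [Finset.mem_insert, Finset.mem_singleton, not_or] at this
    exact this
  refine ⟨z, fun l => hnode _ (hz l), ?_⟩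
  intro l l' hl
  rcases lt_or_gt_of_ne hl with h | h
  · exact sep_symm k (by omega) _ _ (hnode _ (hz l')).1 (key l' l h)
  · exact key l l' h

end Pool.Agent.Helper72.T1.NOD
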